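import Mathlib
import Pool.Agent.Lib.MP_d87a8f_pr.E.Enc

/-!
The irreducible characters of small degree of a finite group.
-/

namespace Pool.Agent.Lib.MP_d87a8f_pr.M

open Finset Pool.Agent.Lib.MP_d87a8f_pr.E

theorem irr_finite (G : Type) [Group G] [Fintype G] (d : ℕ) :
    {χ : G → ℂ | Ir ⊤ χ ∧ ∃ n : ℕ, n ≤ d ∧ χ 1 = n}.Finite := by
  obtain ⟨I⟩ := exists_bas (⊤ : Subgroup G)
  refine (Set.finite_range I.χ).subset fun χ hχ => ?_
  obtain ⟨i, hi⟩ := hχ.1.exists_eq I
  exact ⟨i, funext fun x => (hi x trivial).symm⟩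

/-- the irreducible characters of degree at most `d` -/
noncomputable def irr (G : Type) [Group G] [Fintype G] (d : ℕ) : Finset (G → ℂ) :=
  (irr_finite G d).toFinset

theorem mem_irr {G : Type} [Group G] [Fintype G] {d : ℕ} {χ : G → ℂ} :
    χ ∈ irr G d ↔ Ir ⊤ χ ∧ ∃ n : ℕ, n ≤ d ∧ χ 1 = n := by
  simp [irr]

/-- all subgroups of index at most `d` have an Abelianisation of order at most `M` -/
def AbLe (G : Type) [Group G] (d M : ℕ) : Prop :=
  ∀ H : Subgroup G, H.index ≤ d → Nat.card (Abelianization H) ≤ M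

end Pool.Agent.Lib.MP_d87a8f_pr.M
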