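import Mathlib
import Pool.Agent.Lib.MP_d87a8f_pr.Q.Wed
import Pool.Agent.Lib.MP_d87a8f_pr.M.Defs

/-!
The characters and the list of matrix representations.
-/

namespace Pool.Agent.Lib.MP_d87a8f_pr.M

open Finset Pool.Agent.Lib.MP_d87a8f_pr.E

variable {G : Type} [Group G] [Fintype G] [DecidableEq G]

omit [DecidableEq G] in
theorem ip_top (f g : G → ℂ) : ip ⊤ f g = (Fintype.card G : ℂ)⁻¹ * ∑ x, f x * g x⁻¹ := by
  unfold ip
  rw [Subgroup.card_top, Nat.card_eq_fintype_card]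
  congr 1
  exact sum_congr (eq_univ_of_forall fun x => mem_els.2 trivial) fun _ _ => rfl

theorem ir_trace (I : Q.Irr G) (i : Fin I.s) : Ir ⊤ (fun x => (I.ρ i x).trace) := by
  refine ⟨⟨I.d i, (I.ρ i).comp (⊤ : Subgroup G).subtype, fun x => rfl⟩, ?_⟩
  rw [ip_top, bas_orth, if_pos rfl]
  exact inv_mul_cancel₀ (Nat.cast_ne_zero.2 Fintype.card_ne_zero)

theorem trace_inj (I : Q.Irr G) {i j : Fin I.s}
    (h : (fun x => (I.ρ i x).trace) = fun x => (I.ρ j x).trace) : i = j := by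
  by_contra hij
  have h1 := (ir_trace I i).2
  nth_rewrite 2 [h] at h1
  rw [ip_top, bas_orth, if_neg hij, mul_zero] at h1
  exact zero_ne_one h1

theorem exists_trace (I : Q.Irr G) {χ : G → ℂ} (h : Ir ⊤ χ) :
    ∃ i, χ = fun x => (I.ρ i x).trace := by
  obtain ⟨n, hn0, hn⟩ := h.deg_pos
  have h1 := bas_full I χ (fun g x => h.1.cl g trivial x trivial) 1
  have h2 : (Fintype.card G : ℂ) * χ 1 ≠ 0 :=
    mul_ne_zero (Nat.cast_ne_zero.2 Fintype.card_ne_zero) (by rw [hn]; exact_mod_cast hn0.ne')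
  rw [h1] at h2
  obtain ⟨i, -, hi⟩ := exists_ne_zero_of_sum_ne_zero h2
  refine ⟨i, funext fun x => h.eq_of_ip (ir_trace I i) ?_ x trivial⟩
  rw [ip_top]
  exact mul_ne_zero (inv_ne_zero (Nat.cast_ne_zero.2 Fintype.card_ne_zero)) (left_ne_zero_of_mul hi)

theorem kerf_trace (I : Q.Irr G) (i : Fin I.s) :
    kerf (fun x => (I.ρ i x).trace) = (I.ρ i).ker := by
  ext x
  rw [MonoidHom.mem_ker]
  refine ⟨fun hx => ?_, fun hx y => ?_⟩
  · have h1 := (I.schur i).trace_sum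
    have h2 := h1
    rw [← Equiv.sum_comp (Equiv.mulRight x)] at h2
    have h3 : ∀ y : G, (I.ρ i (y * x)).trace = (I.ρ i y).trace := hx
    simp only [Equiv.coe_mulRight, h3, mul_inv_rev, map_mul (I.ρ i) x⁻¹] at h2
    simp only [← mul_smul_comm] at h2
    rw [← mul_sum, h1, mul_smul_comm, mul_one] at h2
    have hc : (Fintype.card G : ℂ) / I.d i ≠ 0 :=
      div_ne_zero (Nat.cast_ne_zero.2 Fintype.card_ne_zero) (Nat.cast_ne_zero.2 (I.pos i).ne')
    have h4 : I.ρ i x⁻¹ = 1 := smul_right_injective _ hc h2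
    have h5 := map_mul (I.ρ i) x⁻¹ x
    rw [inv_mul_cancel, map_one, h4, one_mul] at h5
    exact h5.symm
  · show (I.ρ i (y * x)).trace = (I.ρ i y).trace
    rw [map_mul, hx, mul_one]

theorem lowDim_le_irr (d : ℕ) : lowDim G d ≤ d ^ 2 * (irr G d).card := by
  obtain ⟨I⟩ := Q.exists_irr G
  refine (I.lowDim_le d).trans ?_
  have h1 : (univ.filter fun i => I.d i ≤ d).card ≤ (irr G d).card :=
    card_le_card_of_injOn (fun i x => (I.ρ i x).trace) (fun i hi => by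
      refine mem_coe.2 (mem_irr.2 ⟨ir_trace I i, I.d i, (mem_filter.1 (mem_coe.1 hi)).2, ?_⟩)
      simp) (fun i _ j _ h => trace_inj I h)
  calc ∑ i ∈ univ.filter (fun i => I.d i ≤ d), I.d i ^ 2
      ≤ (univ.filter fun i => I.d i ≤ d).card • d ^ 2 :=
        sum_le_card_nsmul _ _ _ fun i hi => Nat.pow_le_pow_left (mem_filter.1 hi).2 2
    _ ≤ d ^ 2 * (irr G d).card := by
        rw [smul_eq_mul, mul_comm]; exact Nat.mul_le_mul_left _ h1

end Pool.Agent.Lib.MP_d87a8f_pr.M
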