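import Mathlib
import Pool.Agent.Lib.MP_d87a8f_pr.M.Defs

/-!
Characters over an irreducible character of a normal subgroup come from its stabiliser.
-/

namespace Pool.Agent.Lib.MP_d87a8f_pr.M

open Finset Pool.Agent.Lib.MP_d87a8f_pr.E

variable {G : Type} [Group G] [Fintype G]

theorem ir_subtype (H : Subgroup G) [Fintype H] {τ : G → ℂ} (h : Ir H τ) :
    Ir (⊤ : Subgroup H) (fun x : H => τ x) := by
  obtain ⟨⟨d, ρ, hρ⟩, h2⟩ := h
  refine ⟨⟨d, ρ.comp (⊤ : Subgroup H).subtype, fun x => hρ x.1⟩, ?_⟩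
  rw [← h2]
  unfold ip
  rw [Subgroup.card_top]
  congr 1
  refine sum_bij (fun x _ => (x : G)) (fun x _ => mem_els.2 x.2) (fun x _ y _ e => Subtype.ext e)
    (fun y hy => ⟨⟨y, mem_els.1 hy⟩, mem_els.2 trivial, rfl⟩) (fun x _ => rfl)

open Classical in
/-- `full` for `ind ⊤ H τ` at `1`; each character over `τ` has degree at least `τ 1` -/
theorem card_over_le (H : Subgroup G) {τ : G → ℂ} (h : Ir H τ) (s : Finset (G → ℂ))
    (hs : ∀ χ ∈ s, Ir ⊤ χ ∧ ip H χ τ ≠ 0) : s.card ≤ H.index := by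
  obtain ⟨I⟩ := exists_bas (⊤ : Subgroup G)
  obtain ⟨c, hc0, hc⟩ := h.deg_pos
  choose m hm using fun j => h.1.ip_nat ((I.ir j).1.mono (le_top (a := H)))
  choose d hd using fun j => (I.ir j).1.deg
  have h1 := I.full _ (ind_cl ⊤ H τ) 1 trivial
  rw [ind_one le_top, hc, Subgroup.relIndex_top_right] at h1
  simp only [fun j => ip_ind (le_top (a := H)) τ (I.ir j).1.cl, hm, hd] at h1
  have h2 : H.index * c = ∑ j, m j * d j := by exact_mod_cast h1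
  have h3 : s ⊆ (univ.filter fun j => m j ≠ 0).image I.χ := fun χ hχ => by
    obtain ⟨i, hi⟩ := (hs χ hχ).1.exists_eq I
    have e : χ = I.χ i := funext fun x => hi x trivial
    refine mem_image.2 ⟨i, mem_filter.2 ⟨mem_univ _, fun h0 => (hs χ hχ).2 ?_⟩, e.symm⟩
    rw [ip_comm, e, hm, h0, Nat.cast_zero]
  have h4 : ∀ j ∈ univ.filter fun j => m j ≠ 0, c ≤ m j * d j := fun j hj => by
    have q := ((I.ir j).1.mono (le_top (a := H))).sum_le (ι := Unit) univ (fun _ => τ)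
      (fun _ _ => h) (fun _ _ _ _ _ => rfl) (m := m j) (e := c)
      (fun _ _ => by rw [ip_comm, hm]) (fun _ _ => hc) (hd j)
    have q0 : 0 < m j := Nat.pos_of_ne_zero (mem_filter.1 hj).2
    rw [card_univ, Fintype.card_unit, one_mul] at q
    exact ((Nat.le_mul_of_pos_left c q0).trans q).trans (Nat.le_mul_of_pos_left _ q0)
  refine Nat.le_of_mul_le_mul_right (c := c) ?_ hc0
  calc s.card * c ≤ (univ.filter fun j => m j ≠ 0).card * c :=
        Nat.mul_le_mul_right _ ((card_le_card h3).trans card_image_le)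
    _ ≤ ∑ j ∈ univ.filter fun j => m j ≠ 0, m j * d j := by
        rw [← smul_eq_mul]; exact card_nsmul_le_sum _ _ _ h4
    _ ≤ ∑ j, m j * d j := sum_le_sum_of_subset (filter_subset _ _)
    _ = H.index * c := h2.symm

/-- `exists_con`, `clifford`, `con_le`, `orbit_le` -/
theorem exists_under {L : Subgroup G} [L.Normal] {θ χ : G → ℂ} (hθ : Ir L θ) (hχ : Ir ⊤ χ)
    (h : ip L χ θ ≠ 0) {n : ℕ} (hn : χ 1 = n) : ∃ (τ : G → ℂ) (c : ℕ), Ir (stab ⊤ L θ) τ ∧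
      ip (stab ⊤ L θ) χ τ ≠ 0 ∧ τ 1 = c ∧ (stab ⊤ L θ).index * c ≤ n := by
  have hL : L ≤ stab ⊤ L θ := fun g hg => ⟨trivial, fun x hx => hθ.1.cl g hg x hx⟩
  obtain ⟨τ, h1, h2, h3⟩ := (hχ.1.mono (le_top (a := stab ⊤ L θ))).cl.exists_con hL h
  have c1 := clifford hL h1 hθ (fun g hg => hg.2) h3 1 L.one_mem
  obtain ⟨f, hf⟩ := (h1.1.mono hL).ip_nat hθ.1
  obtain ⟨e, he⟩ := hθ.1.deg
  obtain ⟨m, hm⟩ := (hχ.1.mono (le_top (a := stab ⊤ L θ))).ip_nat h1.1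
  obtain ⟨c, hc⟩ := (hχ.1.mono (le_top (a := L))).ip_nat hθ.1
  have hm0 : m ≠ 0 := by
    rintro rfl
    exact h2 (by rw [hm, Nat.cast_zero])
  have q1 : m * f ≤ c := (hχ.1.mono le_top).con_le h1 hL hθ.1 hm hf hc
  have q2 := orbit_le (le_top (a := L)) hχ.1 hθ hc he hn
  rw [Subgroup.relIndex_top_right] at q2
  refine ⟨τ, f * e, h1, h2, by rw [c1, hf, he, Nat.cast_mul], le_trans ?_ q2⟩
  rw [mul_assoc]
  exact Nat.mul_le_mul_left _ (Nat.mul_le_mul_right _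
    ((Nat.le_mul_of_pos_left f (Nat.pos_of_ne_zero hm0)).trans q1))

theorem card_le_ind {L : Subgroup G} [L.Normal] {θ : G → ℂ} (hθ : Ir L θ) {d : ℕ}
    [Fintype (stab ⊤ L θ)] (s : Finset (G → ℂ)) (hs : s ⊆ irr G d)
    (h : ∀ χ ∈ s, ip L χ θ ≠ 0) :
    s.card ≤ (stab ⊤ L θ).index * (irr (stab ⊤ L θ) (d / (stab ⊤ L θ).index)).card := by
  classical
  have hex : ∀ χ : G → ℂ, ∃ τ : G → ℂ, χ ∈ s → Ir (stab ⊤ L θ) τ ∧ ip (stab ⊤ L θ) χ τ ≠ 0 ∧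
      (fun x : stab ⊤ L θ => τ x) ∈ irr (stab ⊤ L θ) (d / (stab ⊤ L θ).index) := fun χ => by
    by_cases hχ : χ ∈ s
    · obtain ⟨h1, n, hn, hn'⟩ := mem_irr.1 (hs hχ)
      obtain ⟨τ, c, q1, q2, q3, q4⟩ := exists_under hθ h1 (h χ hχ) hn'
      refine ⟨τ, fun _ => ⟨q1, q2, mem_irr.2 ⟨ir_subtype _ q1, c, ?_, q3⟩⟩⟩
      rw [Nat.le_div_iff_mul_le (Nat.pos_of_ne_zero Subgroup.index_ne_zero_of_finite), mul_comm]
      exact q4.trans hn
    · exact ⟨0, fun h' => absurd h' hχ⟩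
  choose τ hτ using hex
  refine card_le_mul_card_image_of_maps_to (f := fun χ => fun x : stab ⊤ L θ => τ χ x)
    (fun χ hχ => (hτ χ hχ).2.2) _ fun σ _ => ?_
  rcases (s.filter fun χ => (fun x : stab ⊤ L θ => τ χ x) = σ).eq_empty_or_nonempty with h0 | ⟨χ0, h0⟩
  · rw [h0]; exact Nat.zero_le _
  · rw [mem_filter] at h0
    refine card_over_le _ (hτ χ0 h0.1).1 _ fun χ hχ => ?_
    rw [mem_filter] at hχ
    refine ⟨(mem_irr.1 (hs hχ.1)).1, ?_⟩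
    rw [ip_congr (fun _ _ => rfl) (g' := τ χ) fun x hx => congrFun (h0.2.trans hχ.2.symm) ⟨x, hx⟩]
    exact (hτ χ hχ.1).2.1

end Pool.Agent.Lib.MP_d87a8f_pr.M
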