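import Mathlib
import Pool.Agent.Lib.MP_d87a8f_pr.M.Ind
import Pool.Agent.Lib.MP_d87a8f_pr.M.Low

/-!
An invariant irreducible character of a perfect normal subgroup extends to a central extension,
and the characters above it factor.
-/

namespace Pool.Agent.Lib.MP_d87a8f_pr.M

open Finset Pool.Agent.Lib.MP_d87a8f_pr.E
open scoped commutatorElement

theorem ir_comp {G G1 : Type} [Group G] [Fintype G] [Group G1] [Fintype G1] (π : G1 →* G)
    (hπ : Function.Surjective π) {χ : G → ℂ} (h : Ir ⊤ χ) : Ir ⊤ (fun x => χ (π x)) := by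
  classical
  obtain ⟨⟨d, ρ, hρ⟩, h2⟩ := h
  refine ⟨⟨d, (ρ.comp Subgroup.topEquiv.symm.toMonoidHom).comp (π.comp (⊤ : Subgroup G1).subtype),
    fun x => hρ ⟨π x, trivial⟩⟩, ?_⟩
  rw [ip_top] at h2 ⊢
  have e1 : ∑ x, χ (π x) * χ (π x⁻¹) = ∑ y, (Nat.card π.ker : ℂ) * (χ y * χ y⁻¹) := by
    simp only [map_inv]
    rw [← sum_fiberwise_of_maps_to (g := π) (t := univ) (fun _ _ => mem_univ _)]
    refine sum_congr rfl fun y _ => ?_
    rw [sum_congr rfl (g := fun _ => χ y * χ y⁻¹) fun x hx => by rw [(mem_filter.1 hx).2],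
      sum_const, nsmul_eq_mul]
    congr 2
    obtain ⟨x0, rfl⟩ := hπ y
    rw [← card_els]
    refine card_bij (fun x _ => x0⁻¹ * x) (fun x hx => mem_els.2 ?_)
      (fun x _ z _ e => mul_left_cancel e) (fun z hz => ⟨x0 * z, ?_, by group⟩)
    · rw [MonoidHom.mem_ker, map_mul, map_inv, (mem_filter.1 hx).2, inv_mul_cancel]
    · rw [mem_filter, map_mul, MonoidHom.mem_ker.1 (mem_els.1 hz), mul_one]
      exact ⟨mem_univ _, rfl⟩
  have e2 : (Fintype.card G1 : ℂ) = Nat.card π.ker * Fintype.card G := by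
    have q := π.ker.card_mul_index
    rw [Subgroup.index_ker, MonoidHom.range_eq_top.2 hπ, Subgroup.card_top,
      Nat.card_eq_fintype_card (α := G), Nat.card_eq_fintype_card (α := G1)] at q
    exact_mod_cast q.symm
  rw [e1, ← mul_sum, e2, mul_inv, mul_mul_mul_comm, inv_mul_cancel₀ (card_ne _), one_mul, h2]

theorem ip_range {G G1 : Type} [Group G] [Fintype G] [Group G1] [Fintype G1] {L : Subgroup G}
    (s : L →* G1) (hs : Function.Injective s) {f g : G → ℂ} {F H : G1 → ℂ}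
    (hf : ∀ x : L, F (s x) = f x) (hg : ∀ x : L, H (s x) = g x) : ip s.range F H = ip L f g := by
  unfold ip
  rw [← Nat.card_congr (MonoidHom.ofInjective hs).toEquiv]
  congr 1
  symm
  refine sum_bij (fun x hx => s ⟨x, mem_els.1 hx⟩) (fun x _ => mem_els.2 ⟨_, rfl⟩)
    (fun x _ y _ e => congrArg Subtype.val (hs e)) (fun y hy => ?_) (fun x hx => ?_)
  · obtain ⟨x, rfl⟩ := mem_els.1 hy
    exact ⟨x, mem_els.2 x.2, rfl⟩
  · rw [← map_inv, hf, hg]
    rfl

section
variable {L : Type} [Group L] [Fintype L] {e : ℕ}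

theorem scalar_of_comm {σ : L →* Matrix (Fin e) (Fin e) ℂ} (hS : Q.Schur σ)
    (u : Matrix (Fin e) (Fin e) ℂ) (h : ∀ l, σ l * u = u * σ l) : ∃ c : ℂ, u = c • 1 := by
  have h1 := hS.conj_sum u
  have h2 : ∀ l, σ l * u * σ l⁻¹ = u := fun l => by
    rw [h, mul_assoc, ← map_mul, mul_inv_cancel, map_one, mul_one]
  simp only [h2, sum_const, card_univ] at h1
  have hG : (Fintype.card L : ℂ) ≠ 0 := Nat.cast_ne_zero.2 Fintype.card_ne_zero
  refine ⟨(Fintype.card L : ℂ)⁻¹ * ((Fintype.card L : ℂ) / e * u.trace), ?_⟩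
  rw [mul_smul, ← h1, ← Nat.cast_smul_eq_nsmul ℂ, smul_smul, inv_mul_cancel₀ hG, one_smul]

theorem exists_inter (he : 0 < e) {σ σ' : L →* Matrix (Fin e) (Fin e) ℂ} (hS : Q.Schur σ)
    (ht : ∑ l, (σ' l).trace * (σ l⁻¹).trace ≠ 0) :
    ∃ u : Matrix (Fin e) (Fin e) ℂ, u.det = 1 ∧ ∀ l, σ' l * u = u * σ l := by
  have h1 : ∑ l, (σ' l).trace * (σ l⁻¹).trace =
      ∑ a, ∑ b, (∑ l, σ' l * Matrix.single a b (1 : ℂ) * σ l⁻¹ : Matrix (Fin e) (Fin e) ℂ) a b := by
    simp only [Matrix.trace, Matrix.diag, sum_mul_sum, Matrix.sum_apply]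
    rw [sum_comm]
    refine sum_congr rfl fun a _ => ?_
    rw [sum_comm]
    refine sum_congr rfl fun b _ => sum_congr rfl fun l _ => ?_
    simp [Matrix.mul_apply, Matrix.single_apply, ite_and]
  rw [h1] at ht
  obtain ⟨a, -, ha⟩ := exists_ne_zero_of_sum_ne_zero ht
  obtain ⟨b, -, hb⟩ := exists_ne_zero_of_sum_ne_zero ha
  obtain ⟨u, hu⟩ : ∃ u, u = ∑ l, σ' l * Matrix.single a b (1 : ℂ) * σ l⁻¹ := ⟨_, rfl⟩
  rw [← hu] at hb
  have h2 : ∀ x, σ' x * u = u * σ x := fun x => by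
    rw [hu, mul_sum, sum_mul, ← Equiv.sum_comp (Equiv.mulLeft x)
      (fun l => σ' l * Matrix.single a b (1 : ℂ) * σ l⁻¹ * σ x)]
    refine sum_congr rfl fun l _ => ?_
    simp only [Equiv.coe_mulLeft, map_mul, mul_inv_rev, mul_assoc]
    rw [← map_mul σ x⁻¹ x, inv_mul_cancel, map_one, mul_one]
  have h3 : (∑ l, σ l * Matrix.single b a (1 : ℂ) * σ' l⁻¹) * u =
      ((Fintype.card L : ℂ) / e * u a b) • 1 := by
    have := hS.conj_sum (Matrix.single b a (1 : ℂ) * u)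
    rw [Matrix.trace_single_mul, one_smul] at this
    rw [← this, sum_mul]
    exact sum_congr rfl fun l _ => by rw [mul_assoc, h2]; simp only [mul_assoc]
  have h4 : u.det ≠ 0 := fun h0 => by
    have := congrArg Matrix.det h3
    rw [Matrix.det_mul, h0, mul_zero, Matrix.det_smul, Matrix.det_one, mul_one] at this
    exact pow_ne_zero _ (mul_ne_zero (div_ne_zero (Nat.cast_ne_zero.2 Fintype.card_ne_zero)
      (Nat.cast_ne_zero.2 he.ne')) hb) this.symm
  obtain ⟨c, hc⟩ := IsAlgClosed.exists_pow_nat_eq (u.det)⁻¹ he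
  refine ⟨c • u, ?_, fun l => ?_⟩
  · rw [Matrix.det_smul, Fintype.card_fin, hc, inv_mul_cancel₀ h4]
  · rw [mul_smul_comm, h2, smul_mul_assoc]

end

/-- the pairs of a group element and an intertwiner of determinant one -/
def ext {G : Type} [Group G] (L : Subgroup G) [hL : L.Normal] {e : ℕ}
    (σ : L →* Matrix (Fin e) (Fin e) ℂ) : Subgroup (G × Matrix.SpecialLinearGroup (Fin e) ℂ) where
  carrier := {p | ∀ l : L, σ (MulAut.conjNormal p.1 l) * p.2.1 = p.2.1 * σ l}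
  one_mem' := fun l => by simp
  mul_mem' := fun {p q} hp hq l => by
    show σ (MulAut.conjNormal (p.1 * q.1) l) * (p.2.1 * q.2.1) = p.2.1 * q.2.1 * σ l
    rw [map_mul, MulAut.mul_apply, ← mul_assoc, hp, mul_assoc, hq, mul_assoc]
  inv_mem' := fun {p} hp l => by
    have h := hp (MulAut.conjNormal p.1⁻¹ l)
    rw [← MulAut.mul_apply, ← map_mul, mul_inv_cancel, map_one, MulAut.one_apply] at h
    have e1 : (p.2⁻¹).1 * p.2.1 = 1 := congrArg Subtype.val (inv_mul_cancel p.2)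
    have e2 : p.2.1 * (p.2⁻¹).1 = 1 := congrArg Subtype.val (mul_inv_cancel p.2)
    show σ (MulAut.conjNormal p.1⁻¹ l) * (p.2⁻¹).1 = (p.2⁻¹).1 * σ l
    calc σ (MulAut.conjNormal p.1⁻¹ l) * (p.2⁻¹).1
        = (p.2⁻¹).1 * (p.2.1 * σ (MulAut.conjNormal p.1⁻¹ l)) * (p.2⁻¹).1 := by
          rw [← mul_assoc, e1, one_mul]
      _ = (p.2⁻¹).1 * σ l * (p.2.1 * (p.2⁻¹).1) := by rw [← h]; simp only [mul_assoc]
      _ = _ := by rw [e2, mul_one]

theorem factor (G : Type) [Group G] [Fintype G] (L : Subgroup G) (θ : G → ℂ) (e : ℕ)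
    (hL : L.Normal) (hLL : ⁅L, L⁆ = L) (hθ : Ir L θ) (he : θ 1 = e)
    (hinv : ∀ g : G, ∀ x ∈ L, θ (g * x * g⁻¹) = θ x) :
    ∃ (G1 : Type) (_ : Group G1) (_ : Fintype G1) (π : G1 →* G) (β : (G → ℂ) → G1 → ℂ),
      Function.Surjective π ∧ Nat.card π.ker ≤ e ∧
      Set.InjOn β {χ | Ir ⊤ χ ∧ ip L χ θ ≠ 0} ∧
      ∀ χ, Ir ⊤ χ → ip L χ θ ≠ 0 → Ir ⊤ (β χ) ∧ (e : ℂ) * β χ 1 = χ 1 := by
  classical
  obtain ⟨I⟩ := Q.exists_irr L
  obtain ⟨i, hi⟩ := exists_trace I (ir_subtype L hθ)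
  have hi' : ∀ x : L, θ x = (I.ρ i x).trace := fun x => congrFun hi x
  have hde : I.d i = e := by
    have := hi' 1
    rw [map_one, Matrix.trace_one, Fintype.card_fin] at this
    exact_mod_cast this.symm.trans he
  subst hde
  have he0 := I.pos i
  have hS := I.schur i
  have htr := bas_orth I i i
  rw [if_pos rfl] at htr
  clear hi
  generalize I.ρ i = σ at hi' hS htr
  generalize I.d i = e at *
  let π : ext L σ →* G := (MonoidHom.fst _ _).comp (ext L σ).subtype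
  have hπ : Function.Surjective π := fun g => by
    obtain ⟨u, hu, hu'⟩ := exists_inter he0 (σ' := σ.comp (MulAut.conjNormal g).toMonoidHom) hS (by
      have : ∀ l : L, ((σ.comp (MulAut.conjNormal g).toMonoidHom) l).trace = (σ l).trace :=
        fun l => by
          rw [← hi' l, ← hinv g l l.2]
          exact (hi' (MulAut.conjNormal g l)).symm
      simp only [this, htr]
      exact Nat.cast_ne_zero.2 Fintype.card_ne_zero)
    exact ⟨⟨(g, ⟨u, hu⟩), hu'⟩, rfl⟩
  have hsc : ∀ x : π.ker, ∃ c : ℂ, x.1.1.2.1 = c • 1 ∧ c ^ e = 1 := fun x => by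
    have h1 : x.1.1.1 = 1 := x.2
    obtain ⟨c, hc⟩ := scalar_of_comm hS x.1.1.2.1 fun l => by
      have := x.1.2 l
      rwa [h1, map_one, MulAut.one_apply] at this
    refine ⟨c, hc, ?_⟩
    have := x.1.1.2.2
    rwa [hc, Matrix.det_smul, Matrix.det_one, mul_one, Fintype.card_fin] at this
  choose c hc hc' using hsc
  have hcinj : Function.Injective fun x : π.ker =>
      (⟨c x, by simpa [Polynomial.mem_nthRoots he0] using hc' x⟩ :
        (Polynomial.nthRoots e (1 : ℂ)).toFinset) := fun x y h => by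
    have h1 : c x = c y := congrArg Subtype.val h
    refine Subtype.ext (Subtype.ext (Prod.ext ?_ (Subtype.ext ?_)))
    · exact (show x.1.1.1 = 1 from x.2).trans (show y.1.1.1 = 1 from y.2).symm
    · rw [hc, hc, h1]
  have hker : Nat.card π.ker ≤ e := by
    refine (Nat.card_le_card_of_injective _ hcinj).trans ?_
    rw [Nat.card_eq_fintype_card, Fintype.card_coe]
    exact (Multiset.toFinset_card_le _).trans (Polynomial.card_nthRoots _ _)
  have : Finite π.ker := Finite.of_injective _ hcinj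
  have : Finite (ext L σ) := π.finite_iff_finite_ker_range.2 ⟨inferInstance, inferInstance⟩
  have : Fintype (ext L σ) := Fintype.ofFinite _
  have hdet : ∀ l : L, (σ l).det = 1 := fun l => by
    let δ : L →* ℂ := (Matrix.detMonoidHom).comp σ
    have h1 : ⁅L, L⁆ ≤ δ.toHomUnits.ker.map L.subtype := by
      rw [Subgroup.commutator_le]
      intro a ha b hb
      refine ⟨⁅(⟨a, ha⟩ : L), ⟨b, hb⟩⁆, ?_, rfl⟩
      rw [SetLike.mem_coe, MonoidHom.mem_ker, map_commutatorElement,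
        commutatorElement_eq_one_iff_mul_comm, mul_comm]
    rw [hLL] at h1
    obtain ⟨x, hx, hx'⟩ := h1 l.2
    obtain rfl : x = l := Subtype.ext hx'
    exact congrArg Units.val (MonoidHom.mem_ker.1 hx)
  let s : L →* ext L σ :=
    { toFun := fun l => ⟨(l.1, ⟨σ l, hdet l⟩), fun x => by
        show σ (MulAut.conjNormal l.1 x) * σ l = σ l * σ x
        rw [← map_mul, ← map_mul]
        congr 1
        exact Subtype.ext (by simp)⟩
      map_one' := Subtype.ext (Prod.ext rfl (Subtype.ext (map_one σ)))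
      map_mul' := fun a b => Subtype.ext (Prod.ext rfl (Subtype.ext (map_mul σ a b))) }
  have hs : Function.Injective s := fun a b h =>
    Subtype.ext (congrArg (fun p : ext L σ => p.1.1) h)
  have hn : s.range.Normal := ⟨by
    rintro _ ⟨l, rfl⟩ p
    refine ⟨MulAut.conjNormal p.1.1 l, ?_⟩
    rw [eq_mul_inv_iff_mul_eq]
    exact Subtype.ext (Prod.ext (by simp [s]) (Subtype.ext (p.2 l)))⟩
  let U : ext L σ →* Matrix (Fin e) (Fin e) ℂ :=
    { toFun := fun p => p.1.2.1, map_one' := rfl, map_mul' := fun _ _ => rfl }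
  let Θ : ext L σ → ℂ := fun p => (U p).trace
  have hΘ : Ch ⊤ Θ := ⟨e, U.comp (⊤ : Subgroup (ext L σ)).subtype, fun _ => rfl⟩
  have hΘ1 : Θ 1 = e := by
    show (U 1).trace = e
    rw [map_one, Matrix.trace_one, Fintype.card_fin]
  have hΘs : ∀ l : L, Θ (s l) = θ l := fun l => (hi' l).symm
  have hone : Lin s.range (fun _ => (1 : ℂ)) := ⟨rfl, fun _ _ _ _ => (mul_one _).symm⟩
  have key : ∀ χ : G → ℂ, ∃ β : ext L σ → ℂ, Ir ⊤ χ → ip L χ θ ≠ 0 →
      Ir ⊤ β ∧ (e : ℂ) * β 1 = χ 1 ∧ ip ⊤ (fun p => Θ p * β p) (fun p => χ (π p)) = 1 := by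
    intro χ
    by_cases h : Ir ⊤ χ ∧ ip L χ θ ≠ 0
    swap
    · exact ⟨0, fun h1 h2 => absurd ⟨h1, h2⟩ h⟩
    obtain ⟨hχ, hχθ⟩ := h
    have hχ1 := ir_comp π hπ hχ
    have hψ : Ch ⊤ fun p => Θ p⁻¹ * χ (π p) := hΘ.inv.mul hχ1.1
    obtain ⟨m, hm⟩ := (hχ.1.mono (le_top (a := L))).ip_nat hθ.1
    have e1 : ip s.range (fun p => Θ p⁻¹ * χ (π p)) (fun _ => 1) = m := by
      rw [ip_mul s.range (fun p => Θ p⁻¹), ← hm]
      exact ip_range s hs (fun _ => rfl) fun l => by rw [inv_inv, mul_one, hΘs]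
    obtain ⟨β, h1, h2, h3⟩ := hψ.cl.exists_con (le_top (a := s.range)) (g := fun _ => 1)
      (by rw [e1, ← hm]; exact hχθ)
    have c1 := clifford le_top h1 hone.ir (fun _ _ _ _ => rfl) h3 1 s.range.one_mem
    rw [mul_one] at c1
    have c2 := clifford le_top hχ hθ (fun g _ => hinv g) hχθ 1 L.one_mem
    rw [hm, he] at c2
    obtain ⟨f, hf⟩ := h1.1.deg
    obtain ⟨a, ha⟩ := hψ.ip_nat h1.1
    have ha0 : a ≠ 0 := by
      rintro rfl
      exact h2 (by rw [ha, Nat.cast_zero])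
    have q1 : a * f ≤ m := hψ.con_le h1 le_top hone.ir.1 ha (c1.symm.trans hf) e1
    have e2 : ip ⊤ (fun p => Θ p * β p) (fun p => χ (π p)) = a := by
      rw [ip_mul, ip_comm, ha]
    have q2 := (hΘ.mul h1.1).sum_le (ι := Unit) univ (fun _ p => χ (π p)) (fun _ _ => hχ1)
      (fun _ _ _ _ _ => rfl) (m := a) (e := m * e) (n := e * f) (fun _ _ => e2)
      (fun _ _ => by rw [map_one, c2, Nat.cast_mul])
      (by show Θ 1 * β 1 = _; rw [hΘ1, hf, Nat.cast_mul])
    rw [card_univ, Fintype.card_unit, one_mul] at q2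
    have q3 : a * m ≤ f := Nat.le_of_mul_le_mul_right (c := e) (by
      rw [mul_assoc, mul_comm f]; exact q2) he0
    have hm0 : m ≠ 0 := by
      rintro rfl
      exact hχθ (by rw [hm, Nat.cast_zero])
    have q4 : f = m := le_antisymm ((Nat.le_mul_of_pos_left f (Nat.pos_of_ne_zero ha0)).trans q1)
      ((Nat.le_mul_of_pos_left m (Nat.pos_of_ne_zero ha0)).trans q3)
    have q5 : a = 1 := by
      rw [q4] at q1
      have := Nat.le_of_mul_le_mul_right (a := a) (b := 1) (c := m) (by rwa [one_mul])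
        (Nat.pos_of_ne_zero hm0)
      omega
    refine ⟨β, fun _ _ => ⟨h1, by rw [hf, c2, q4, mul_comm], by rw [e2, q5, Nat.cast_one]⟩⟩
  choose β hβ using key
  refine ⟨ext L σ, inferInstance, inferInstance, π, β, hπ, hker, fun χ h χ' h' hb => ?_,
    fun χ h1 h2 => ⟨(hβ χ h1 h2).1, (hβ χ h1 h2).2.1⟩⟩
  obtain ⟨a1, a2, a3⟩ := hβ χ h.1 h.2
  obtain ⟨-, b2, b3⟩ := hβ χ' h'.1 h'.2
  rw [← hb] at b2 b3
  by_contra hne
  obtain ⟨n, hn0, hn⟩ := h.1.deg_pos
  have q := (hΘ.mul a1.1).sum_le (ι := G → ℂ) {χ, χ'} (fun f p => f (π p))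
    (fun f hf => by
      rcases mem_insert.1 hf with rfl | hf
      · exact ir_comp π hπ h.1
      · rw [mem_singleton.1 hf]; exact ir_comp π hπ h'.1)
    (fun f _ g _ hfg => funext fun y => by
      obtain ⟨p, rfl⟩ := hπ y
      exact hfg p trivial) (m := 1) (e := n) (n := n)
    (fun f hf => by
      rcases mem_insert.1 hf with rfl | hf
      · rw [a3, Nat.cast_one]
      · rw [mem_singleton.1 hf, b3, Nat.cast_one])
    (fun f hf => by
      rcases mem_insert.1 hf with rfl | hf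
      · rw [map_one, hn]
      · rw [mem_singleton.1 hf, map_one, ← b2, a2, hn])
    (by show Θ 1 * β χ 1 = _; rw [hΘ1, a2, hn])
  rw [card_pair hne] at q
  omega

end Pool.Agent.Lib.MP_d87a8f_pr.M
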