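import Mathlib
import Pool.Agent.Lib.MP_d87a8f_pr.S.Grp

/-!
A common perfect normal subgroup for a family of quotients with a nonabelian central chief factor.
-/

namespace Pool.Agent.Lib.MP_d87a8f_pr.M

open Finset Pool.Agent.Lib.MP_d87a8f_pr.S

variable {G : Type} [Group G]

/-- proper normal subgroups which are prime for the commutator of normal subgroups -/
def Pm (C : Subgroup G) : Prop :=
  C.Normal ∧ C ≠ ⊤ ∧ ∀ X Y : Subgroup G, X.Normal → Y.Normal → ⁅X, Y⁆ ≤ C → X ≤ C ∨ Y ≤ C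

theorem three_sub {K A B C : Subgroup G} [K.Normal] (h1 : ⁅⁅B, C⁆, A⁆ ≤ K) (h2 : ⁅⁅C, A⁆, B⁆ ≤ K) :
    ⁅⁅A, B⁆, C⁆ ≤ K := by
  have e : ∀ X : Subgroup G, X ≤ K ↔ X.map (QuotientGroup.mk' K) = ⊥ := fun X => by
    rw [Subgroup.map_eq_bot_iff, QuotientGroup.ker_mk']
  simp only [e, Subgroup.map_commutator] at h1 h2 ⊢
  exact Subgroup.commutator_commutator_eq_bot_of_rotate h1 h2

theorem exists_pm {K : Subgroup G} [K.Normal] (h : ¬ NC G K) : ∃ C : Subgroup G, Pm C ∧ K ≤ C ∧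
    ∀ L : Subgroup G, ⁅L, L⁆ = L → (∀ R : Subgroup G, R.Normal → ¬ R ≤ C → L ≤ R) →
      ⁅L, C⁆ ≤ K := by
  simp only [NC, not_forall] at h
  obtain ⟨V, U, hV, hU, hKV, hVU, hmin, hK, hUU⟩ := h
  have hVC : V ≤ zz V U := le_zz.2 (Subgroup.commutator_le_left V U)
  have hUC : ¬ U ≤ zz V U := fun h => hUU (le_zz.1 h)
  have hCU : zz V U ⊓ U = V :=
    (hmin _ inferInstance (le_inf hVC hVU) inf_le_right).resolve_right
      fun h => hUC (h.symm.le.trans inf_le_left)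
  have key : ∀ X : Subgroup G, X.Normal → ¬ X ≤ zz V U → ⁅X, U⁆ ⊔ V = U := fun X hX h =>
    (hmin _ inferInstance le_sup_right
      (sup_le (Subgroup.commutator_le_right X U) hVU)).resolve_left
      fun e => h (le_zz.2 (le_sup_left.trans e.le))
  refine ⟨zz V U, ⟨inferInstance, fun h => hUC (h ▸ le_top), fun X Y hX hY hXY => ?_⟩,
    hKV.trans hVC, fun L hL hm => ?_⟩
  · by_contra hc
    rw [not_or] at hc
    refine hUU ?_
    have h1 : ⁅⁅X, U⁆, ⁅Y, U⁆⁆ ≤ V := by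
      rw [← hCU]
      exact le_inf ((Subgroup.commutator_mono (Subgroup.commutator_le_left X U)
        (Subgroup.commutator_le_left Y U)).trans hXY)
        ((Subgroup.commutator_le_left _ _).trans (Subgroup.commutator_le_right X U))
    have h2 : ⁅⁅X, U⁆ ⊔ V, ⁅Y, U⁆ ⊔ V⁆ ≤ V := by
      refine comm_sup_le ?_ (Subgroup.commutator_le_left _ _)
      rw [Subgroup.commutator_comm]
      exact comm_sup_le (by rwa [Subgroup.commutator_comm]) (Subgroup.commutator_le_left _ _)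
    rwa [key X hX hc.1, key Y hY hc.2] at h2
  · have hLU : L ≤ U := hm U hU hUC
    have h1 : ⁅zz V U, L⁆ ≤ V := (Subgroup.commutator_mono le_rfl hLU).trans (le_zz.1 le_rfl)
    have h2 : ⁅⁅zz V U, L⁆, L⁆ ≤ K :=
      (Subgroup.commutator_mono h1 hLU).trans (by rwa [Subgroup.commutator_comm])
    rw [← hL]
    exact three_sub (by rwa [Subgroup.commutator_comm L (zz V U)]) h2

variable [Finite G]

theorem few_pm (Lam : ℕ) : ∀ N : Subgroup G, N.Normal → N.index ≤ 2 ^ Lam →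
    ∃ F : Finset (Subgroup G), F.card ≤ Lam ∧ ∀ C, Pm C → N ≤ C → C ∈ F := by
  classical
  induction Lam with
  | zero =>
    intro N _ hN
    have h0 := N.index_ne_zero_of_finite
    have : N = ⊤ := Subgroup.index_eq_one.1 (by omega)
    exact ⟨∅, le_rfl, fun C hC h => absurd (top_le_iff.1 (this ▸ h)) hC.2.1⟩
  | succ a ih =>
    intro N hn hN
    by_cases ht : N = ⊤
    · exact ⟨∅, Nat.zero_le _, fun C hC h => absurd (top_le_iff.1 (ht ▸ h)) hC.2.1⟩
    obtain ⟨N', ⟨n1, n2, n3⟩, hm⟩ := exists_min_sub (fun X : Subgroup G => X.Normal ∧ N ≤ X ∧ X ≠ N)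
      ⟨⊤, inferInstance, le_top, Ne.symm ht⟩
    have hi : N'.index ≤ 2 ^ a := by
      have e := Subgroup.relIndex_mul_index n2
      have h1 : N.relIndex N' ≠ 1 := fun h => n3 (le_antisymm (Subgroup.relIndex_eq_one.1 h) n2)
      have h0 : N.relIndex N' ≠ 0 := fun h => N.index_ne_zero_of_finite (by rw [← e, h, zero_mul])
      have h2 : 2 * N'.index ≤ N.index := e ▸ Nat.mul_le_mul_right _ (by omega)
      rw [pow_succ] at hN
      omega
    obtain ⟨F, hF, h⟩ := ih N' n1 hi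
    refine ⟨insert (zz N N') F, (card_insert_le _ _).trans (by omega), fun C hC hNC => ?_⟩
    by_cases hc : N' ≤ C
    · exact mem_insert_of_mem (h C hC hc)
    have := hC.1
    have e : C ⊓ N' = N := by
      by_contra hne
      exact hc ((hm _ ⟨inferInstance, le_inf hNC n2, hne⟩ inf_le_right).symm.le.trans inf_le_left)
    refine mem_insert.2 (Or.inl (le_antisymm (le_zz.2 ?_) ?_))
    · rw [← e]; exact Subgroup.commutator_le_inf C N'
    · exact (hC.2.2 _ N' inferInstance n1 ((le_zz.1 le_rfl).trans hNC)).resolve_right hc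

theorem Pm.least {C : Subgroup G} (h : Pm C) : ∃ L : Subgroup G, L.Normal ∧ ¬ L ≤ C ∧
    ∀ R : Subgroup G, R.Normal → ¬ R ≤ C → L ≤ ⁅L, R⁆ := by
  obtain ⟨L, ⟨l1, l2⟩, hm⟩ := exists_min_sub (fun X : Subgroup G => X.Normal ∧ ¬ X ≤ C)
    ⟨⊤, inferInstance, fun e => h.2.1 (top_le_iff.1 e)⟩
  exact ⟨L, l1, l2, fun R hR hc => (hm _ ⟨inferInstance, fun e =>
    (h.2.2 L R l1 hR e).elim l2 hc⟩ (Subgroup.commutator_le_left L R)).ge⟩

open Classical in
theorem exists_L {ι : Type} {Lam : ℕ} (hG : Nat.card G ≤ 2 ^ Lam) (s : Finset ι)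
    (K : ι → Subgroup G) (hK : ∀ i ∈ s, (K i).Normal) (h : ∀ i ∈ s, ¬ NC G (K i))
    (hs : s.Nonempty) : ∃ L C : Subgroup G, L.Normal ∧ C.Normal ∧ ⁅L, L⁆ = L ∧ ¬ L ≤ C ∧
      (∀ W : Subgroup G, W.Normal → W ≤ L → W = L ∨ W ≤ C) ∧
      s.card ≤ Lam * (s.filter fun i => K i ≤ C ∧ ⁅L, C⁆ ≤ K i).card := by
  obtain ⟨F, hF, hm⟩ := few_pm (G := G) Lam ⊥ inferInstance (by rwa [Subgroup.index_bot])
  choose! c c1 c2 c3 using fun i (hi : i ∈ s) => @exists_pm G _ (K i) (hK i hi) (h i hi)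
  obtain ⟨C, hC, hmax⟩ := exists_max_image (s.image c) (fun C => (s.filter fun i => c i = C).card)
    (hs.image c)
  obtain ⟨i0, h0, rfl⟩ := mem_image.1 hC
  obtain ⟨L, l1, l2, l3⟩ := (c1 i0 h0).least
  have hL : ⁅L, L⁆ = L := le_antisymm (Subgroup.commutator_le_left L L) (l3 L l1 l2)
  have l4 : ∀ R : Subgroup G, R.Normal → ¬ R ≤ c i0 → L ≤ R := fun R hR hc =>
    (l3 R hR hc).trans (Subgroup.commutator_le_right L R)
  refine ⟨L, c i0, l1, (c1 i0 h0).1, hL, l2, fun W hW hWL => ?_, ?_⟩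
  · by_cases hc : W ≤ c i0
    · exact Or.inr hc
    · exact Or.inl (le_antisymm hWL (l4 W hW hc))
  · refine (card_le_mul_card_image s _ hmax).trans ?_
    rw [mul_comm]
    refine Nat.mul_le_mul ((card_le_card fun C hC => ?_).trans hF) (card_le_card fun i hi => ?_)
    · obtain ⟨i, hi, rfl⟩ := mem_image.1 hC
      exact hm _ (c1 i hi) bot_le
    · obtain ⟨h1, h2⟩ := mem_filter.1 hi
      exact mem_filter.2 ⟨h1, h2 ▸ c2 i h1, h2 ▸ c3 i h1 L hL (h2 ▸ l4)⟩

end Pool.Agent.Lib.MP_d87a8f_pr.M
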