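import Mathlib
import Pool.Agent.Lib.MP_d87a8f_pr.M.Defs

/-!
The bound on the Abelianisations passes to subgroups and to extensions with a small kernel.
-/

namespace Pool.Agent.Lib.MP_d87a8f_pr.M

variable {G : Type} [Group G] [Finite G]

omit [Finite G] in
theorem AbLe.sub {d M : ℕ} (h : AbLe G d M) (H : Subgroup G) : AbLe H (d / H.index) M := by
  intro H' hH'
  have e : Nat.card (Abelianization H') = Nat.card (Abelianization (H'.map H.subtype)) :=
    Nat.card_congr (H'.equivMapOfInjective H.subtype H.subtype_injective).abelianizationCongr.toEquiv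
  rw [e]
  refine h _ ?_
  rw [Subgroup.index_map_subtype]
  exact le_trans (Nat.mul_le_mul_right _ hH') (Nat.div_mul_le_self _ _)

theorem AbLe.ext {d M e d' : ℕ} (h : AbLe G d M) {G1 : Type} [Group G1] [Finite G1] (π : G1 →* G)
    (hπ : Function.Surjective π) (he : Nat.card π.ker ≤ e) (hd : d' ≤ d) :
    AbLe G1 d' (e * M) := by
  intro H1 hH1
  have h1 : (H1.map π).index ≤ d :=
    (Nat.le_of_dvd (Nat.pos_of_ne_zero Subgroup.index_ne_zero_of_finite)
      (H1.index_map_dvd hπ)).trans (hH1.trans hd)
  refine le_trans ?_ (Nat.mul_le_mul he (h _ h1))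
  let φ : H1 →* H1.map π := π.subgroupMap H1
  have hφ : Function.Surjective φ := π.subgroupMap_surjective H1
  have a1 : (commutator H1).map φ = commutator (H1.map π) := by
    rw [commutator_def, Subgroup.map_commutator, Subgroup.map_top_of_surjective φ hφ,
      commutator_def]
  have a2 : Nat.card φ.ker ≤ Nat.card π.ker :=
    Nat.card_le_card_of_injective (fun x : φ.ker => (⟨x.1.1, congrArg Subtype.val x.2⟩ : π.ker))
      fun x y hxy => Subtype.ext (Subtype.ext (congrArg (fun z : π.ker => (z : G1)) hxy))
  have a3 : Nat.card (commutator (H1.map π)) ≤ Nat.card (commutator H1) := by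
    rw [← a1]
    exact Nat.card_le_card_of_surjective _ (φ.subgroupMap_surjective (commutator H1))
  have a4 : Nat.card φ.ker * Nat.card (H1.map π) = Nat.card H1 := by
    rw [← φ.ker.card_mul_index, Subgroup.index_ker, MonoidHom.range_eq_top.2 hφ, Subgroup.card_top]
  have a5 : Nat.card (commutator H1) * Nat.card (Abelianization H1) = Nat.card H1 :=
    (commutator H1).card_mul_index
  have a6 : Nat.card (commutator (H1.map π)) * Nat.card (Abelianization (H1.map π)) =
      Nat.card (H1.map π) := (commutator (H1.map π)).card_mul_index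
  refine Nat.le_of_mul_le_mul_left (c := Nat.card (commutator H1)) ?_ Nat.card_pos
  calc Nat.card (commutator H1) * Nat.card (Abelianization H1)
      = Nat.card φ.ker * (Nat.card (commutator (H1.map π)) *
          Nat.card (Abelianization (H1.map π))) := by rw [a5, a6, a4]
    _ ≤ Nat.card π.ker * (Nat.card (commutator H1) * Nat.card (Abelianization (H1.map π))) :=
        Nat.mul_le_mul a2 (Nat.mul_le_mul_right _ a3)
    _ = _ := by ring

end Pool.Agent.Lib.MP_d87a8f_pr.M
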