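import Mathlib
import Pool.Agent.Lib.MP_d87a8f_pr.M.Ab
import Pool.Agent.Lib.MP_d87a8f_pr.M.Ind

/-!
The induction on the degree over all finite groups.
-/

namespace Pool.Agent.Lib.MP_d87a8f_pr.M

open Finset Pool.Agent.Lib.MP_d87a8f_pr.E

open Classical in
theorem main_ind (P : ∀ (G : Type) [Group G], Subgroup G → Prop) (D Lam Y Z : ℕ) (hZ : 1 ≤ Z)
    (hNC : ∀ (G : Type) [Group G] [Fintype G] (d M : ℕ) (s : Finset (G → ℂ)), d ≤ D →
      Fintype.card G ≤ 2 ^ Lam → AbLe G d M → s ⊆ irr G d → (∀ χ ∈ s, P G (kerf χ)) →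
      s.card ≤ Y * M)
    (hE : ∀ (G : Type) [Group G] [Fintype G] (d : ℕ) (s : Finset (G → ℂ)), d ≤ D →
      Fintype.card G ≤ 2 ^ Lam → s ⊆ irr G d → (∀ χ ∈ s, ¬ P G (kerf χ)) → s.Nonempty →
      ∃ (L : Subgroup G) (θ : G → ℂ) (e : ℕ), L.Normal ∧ ⁅L, L⁆ = L ∧ Ir L θ ∧ θ 1 = e ∧ 2 ≤ e ∧
        s.card ≤ Z * (s.filter fun χ => ip L χ θ ≠ 0).card)
    (hF : ∀ (G : Type) [Group G] [Fintype G] (L : Subgroup G) (θ : G → ℂ) (e : ℕ), L.Normal →
      ⁅L, L⁆ = L → Ir L θ → θ 1 = e → (∀ g : G, ∀ x ∈ L, θ (g * x * g⁻¹) = θ x) →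
      ∃ (G1 : Type) (_ : Group G1) (_ : Fintype G1) (π : G1 →* G) (β : (G → ℂ) → G1 → ℂ),
        Function.Surjective π ∧ Nat.card π.ker ≤ e ∧
        Set.InjOn β {χ | Ir ⊤ χ ∧ ip L χ θ ≠ 0} ∧
        ∀ χ, Ir ⊤ χ → ip L χ θ ≠ 0 → Ir ⊤ (β χ) ∧ (e : ℂ) * β χ 1 = χ 1)
    (j : ℕ) : ∀ (G : Type) [Group G] [Fintype G] (d M : ℕ), d < 2 ^ j → d ≤ D →
      Fintype.card G * d ≤ 2 ^ Lam → AbLe G d M →
      (irr G d).card ≤ (2 * Z * D) ^ j * Y * M := by
  induction j with
  | zero =>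
    intro G _ _ d M hd _ _ _
    have : irr G d = ∅ := eq_empty_of_forall_notMem fun χ hχ => by
      obtain ⟨h1, n, hn, hn'⟩ := mem_irr.1 hχ
      obtain ⟨c, hc0, hc⟩ := h1.deg_pos
      have : (n : ℂ) = c := hn'.symm.trans hc
      have : n = c := by exact_mod_cast this
      omega
    rw [this]
    exact Nat.zero_le _
  | succ j ih =>
    intro G _ _ d M hd hD hG hM
    rcases (irr G d).eq_empty_or_nonempty with h0 | ⟨χ0, h0⟩
    · rw [h0]; exact Nat.zero_le _
    have hd1 : 1 ≤ d := by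
      obtain ⟨h1, n, hn, hn'⟩ := mem_irr.1 h0
      obtain ⟨c, hc0, hc⟩ := h1.deg_pos
      have : (n : ℂ) = c := hn'.symm.trans hc
      have : n = c := by exact_mod_cast this
      omega
    have hG' : Fintype.card G ≤ 2 ^ Lam := (Nat.le_mul_of_pos_right _ hd1).trans hG
    have hX : 1 ≤ (2 * Z * D) ^ j := Nat.one_le_pow _ _ (by
      have := hd1.trans hD
      positivity)
    have hZD : 1 ≤ Z * D := Nat.mul_pos hZ (hd1.trans hD)
    have h1 : ((irr G d).filter fun χ => P G (kerf χ)).card ≤ Z * D * ((2 * Z * D) ^ j * Y * M) := by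
      refine (hNC G d M _ hD hG' hM (filter_subset _ _) fun χ hχ => (mem_filter.1 hχ).2).trans ?_
      calc Y * M = 1 * (1 * Y * M) := by ring
        _ ≤ _ := Nat.mul_le_mul hZD (Nat.mul_le_mul_right _ (Nat.mul_le_mul_right _ hX))
    have h2 : ((irr G d).filter fun χ => ¬ P G (kerf χ)).card ≤
        Z * D * ((2 * Z * D) ^ j * Y * M) := by
      rcases ((irr G d).filter fun χ => ¬ P G (kerf χ)).eq_empty_or_nonempty with e0 | e0
      · rw [e0]; exact Nat.zero_le _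
      obtain ⟨L, θ, e, hL, hLL, hθ, hθe, he2, hs⟩ :=
        hE G d _ hD hG' (filter_subset _ _) (fun χ hχ => (mem_filter.1 hχ).2) e0
      refine hs.trans ?_
      rw [mul_assoc Z D]
      refine Nat.mul_le_mul_left _ ?_
      set t := ((irr G d).filter fun χ => ¬ P G (kerf χ)).filter fun χ => ip L χ θ ≠ 0 with ht
      have ht1 : t ⊆ irr G d := (filter_subset _ _).trans (filter_subset _ _)
      have ht2 : ∀ χ ∈ t, ip L χ θ ≠ 0 := fun χ hχ => (mem_filter.1 hχ).2
      rcases t.eq_empty_or_nonempty with t0 | ⟨χ1, t0⟩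
      · rw [t0]; exact Nat.zero_le _
      obtain ⟨g1, n1, hn1, hn1'⟩ := mem_irr.1 (ht1 t0)
      have hdiv : ∀ r, 2 ≤ r → d / r < 2 ^ j := fun r hr =>
        lt_of_le_of_lt (Nat.div_le_div_left hr two_pos) (by rw [pow_succ] at hd; omega)
      by_cases hst : stab ⊤ L θ = ⊤
      · obtain ⟨G1, i1, i2, π, β, hπ, hker, hinj, hβ⟩ := hF G L θ e hL hLL hθ hθe
          fun g x hx => (show g ∈ stab ⊤ L θ by rw [hst]; trivial).2 x hx
        have hdeg : ∀ χ ∈ t, β χ ∈ irr G1 (d / e) ∧ e ≤ d := fun χ hχ => by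
          obtain ⟨q1, n, hn, hn'⟩ := mem_irr.1 (ht1 hχ)
          obtain ⟨q2, q3⟩ := hβ χ q1 (ht2 χ hχ)
          obtain ⟨c, hc0, hc⟩ := q2.deg_pos
          rw [hc, hn'] at q3
          have q4 : e * c = n := by exact_mod_cast q3
          refine ⟨mem_irr.2 ⟨q2, c, ?_, hc⟩, ?_⟩
          · rw [Nat.le_div_iff_mul_le (by omega), mul_comm]; omega
          · exact (Nat.le_mul_of_pos_right e hc0).trans (by omega)
        have hc1 : t.card ≤ (irr G1 (d / e)).card :=
          card_le_card_of_injOn β (fun χ hχ => mem_coe.2 (hdeg χ (mem_coe.1 hχ)).1)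
            (hinj.mono fun χ hχ => And.intro (mem_irr.1 (ht1 (mem_coe.1 hχ))).1 (ht2 χ (mem_coe.1 hχ)))
        have hc2 : Fintype.card G1 ≤ e * Fintype.card G := by
          have q := π.ker.card_mul_index
          rw [Subgroup.index_ker, MonoidHom.range_eq_top.2 hπ, Subgroup.card_top,
            Nat.card_eq_fintype_card (α := G), Nat.card_eq_fintype_card (α := G1)] at q
          rw [← q]
          exact Nat.mul_le_mul_right _ hker
        have hc3 : Fintype.card G1 * (d / e) ≤ 2 ^ Lam :=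
          calc Fintype.card G1 * (d / e) ≤ e * Fintype.card G * (d / e) :=
                Nat.mul_le_mul_right _ hc2
            _ = Fintype.card G * (d / e * e) := by ring
            _ ≤ Fintype.card G * d := Nat.mul_le_mul_left _ (Nat.div_mul_le_self _ _)
            _ ≤ _ := hG
        have hc4 := ih G1 (d / e) (e * M) (hdiv e he2) ((Nat.div_le_self _ _).trans hD) hc3
          (hM.ext π hπ hker (Nat.div_le_self _ _))
        calc t.card ≤ (2 * Z * D) ^ j * Y * (e * M) := hc1.trans hc4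
          _ = e * ((2 * Z * D) ^ j * Y * M) := by ring
          _ ≤ _ := Nat.mul_le_mul_right _ ((hdeg χ1 t0).2.trans hD)
      · have hr2 : 2 ≤ (stab ⊤ L θ).index := Subgroup.one_lt_index_of_ne_top hst
        obtain ⟨τ, c, q1, -, q3, q4⟩ := exists_under hθ g1 (ht2 χ1 t0) hn1'
        obtain ⟨c', hc0, hc⟩ := q1.deg_pos
        have q5 : (c : ℂ) = c' := q3.symm.trans hc
        have q6 : c = c' := by exact_mod_cast q5
        have hrd : (stab ⊤ L θ).index ≤ d :=
          (Nat.le_mul_of_pos_right _ (by omega)).trans (q4.trans hn1)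
        have hc3 : Fintype.card (stab ⊤ L θ) * (d / (stab ⊤ L θ).index) ≤ 2 ^ Lam :=
          (Nat.mul_le_mul (Fintype.card_subtype_le _) (Nat.div_le_self _ _)).trans hG
        have hc4 := ih (stab ⊤ L θ) (d / (stab ⊤ L θ).index) M (hdiv _ hr2)
          ((Nat.div_le_self _ _).trans hD) hc3 (hM.sub _)
        exact (card_le_ind hθ t ht1 ht2).trans (Nat.mul_le_mul (hrd.trans hD) hc4)
    rw [← card_filter_add_card_filter_not (fun χ => P G (kerf χ))]
    calc _ ≤ Z * D * ((2 * Z * D) ^ j * Y * M) + Z * D * ((2 * Z * D) ^ j * Y * M) :=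
          Nat.add_le_add h1 h2
      _ = _ := by ring

end Pool.Agent.Lib.MP_d87a8f_pr.M
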